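import Pool.Agent.W747.MB.Defs
set_option autoImplicit false

/-! # Area of a slab -/

namespace Pool.Agent.W21.MB

open Metric MeasureTheory Set

/-- derivative of the logarithm of the norm along a line -/
lemma deriv_log {h : ℝ → ℂ} {q : ℂ} {t : ℝ} (h0 : h t ≠ 0) (hd : HasDerivAt h (h t * q) t) :
    HasDerivAt (fun s => Real.log ‖h s‖) q.re t := by
  have h1 : HasDerivAt (fun s => ‖h s‖ ^ 2) (2 * inner ℝ (h t) (h t * q)) t := hd.norm_sq
  have h2 : inner ℝ (h t) (h t * q) = ‖h t‖ ^ 2 * q.re := by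
    have e1 : inner ℝ (h t) (h t * q) = ((h t * q) * (starRingEnd ℂ) (h t)).re := by
      rw [Complex.inner]
    rw [e1]
    have e2 : (h t * q) * (starRingEnd ℂ) (h t) = ((‖h t‖ ^ 2 : ℝ) : ℂ) * q := by
      have := Complex.mul_conj (h t)
      calc (h t * q) * (starRingEnd ℂ) (h t) = (h t * (starRingEnd ℂ) (h t)) * q := by ring
        _ = _ := by rw [this, Complex.normSq_eq_norm_sq]
    rw [e2, Complex.re_ofReal_mul]
  have hp : 0 < ‖h t‖ := norm_pos_iff.2 h0
  have h3 := (h1.log (by positivity)).const_mul (1 / 2 : ℝ)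
  rw [h2] at h3
  have e3 : (1 / 2 : ℝ) * (2 * (‖h t‖ ^ 2 * q.re) / ‖h t‖ ^ 2) = q.re := by
    field_simp
  rw [e3] at h3
  have e4 : (fun s => (1 / 2 : ℝ) * Real.log (‖h s‖ ^ 2)) = fun s => Real.log ‖h s‖ := by
    funext s
    rw [Real.log_pow]
    push_cast
    ring
  rwa [e4] at h3

/-- two points of a slice are close -/
lemma slice {g ℓ : ℂ → ℂ} {c₀ ℓ₀ e : ℂ} {R α β : ℝ} (hl : ℓ₀ ≠ 0)
    (he : e * ‖ℓ₀‖ = (starRingEnd ℂ) ℓ₀)
    (hg : ∀ c ∈ closedBall c₀ R, g c ≠ 0 ∧ HasDerivAt g (g c * ℓ c) c ∧ ‖ℓ c - ℓ₀‖ ≤ ‖ℓ₀‖ / 2)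
    (y : ℝ) {x x' : ℝ} (hxx : x ≤ x')
    (h1 : c₀ + e * ((x : ℂ) + y * Complex.I) ∈ closedBall c₀ R)
    (h2 : c₀ + e * ((x' : ℂ) + y * Complex.I) ∈ closedBall c₀ R)
    (h3 : α ≤ Real.log ‖g (c₀ + e * ((x : ℂ) + y * Complex.I))‖)
    (h4 : Real.log ‖g (c₀ + e * ((x' : ℂ) + y * Complex.I))‖ ≤ β) :
    x' - x ≤ 2 * (β - α) / ‖ℓ₀‖ := by
  have hl0 : 0 < ‖ℓ₀‖ := norm_pos_iff.2 hl
  have hen : ‖e‖ = 1 := by
    have := congrArg norm he
    rw [norm_mul, Complex.norm_real, norm_norm, Complex.norm_conj] at this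
    field_simp at this
    exact this
  set γ : ℝ → ℂ := fun t => c₀ + e * ((t : ℂ) + y * Complex.I) with hγ
  have hγd : ∀ t, HasDerivAt γ e t := by
    intro t
    have a1 : HasDerivAt (fun t : ℝ => (t : ℂ)) 1 t := Complex.ofRealCLM.hasDerivAt
    have a2 := ((a1.add_const (y * Complex.I)).const_mul e).const_add c₀
    rw [mul_one] at a2
    exact a2
  have hmem : ∀ t ∈ Icc x x', γ t ∈ closedBall c₀ R := by
    intro t ht
    have hc : Convex ℝ (closedBall c₀ R) := convex_closedBall c₀ R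
    rcases eq_or_lt_of_le hxx with heq | hlt
    · have : t = x := le_antisymm (heq ▸ ht.2) ht.1
      rw [this]; exact h1
    · have hd : 0 < x' - x := sub_pos.2 hlt
      have := hc h1 h2 (a := (x' - t) / (x' - x)) (b := (t - x) / (x' - x))
        (div_nonneg (by linarith [ht.2]) hd.le) (div_nonneg (by linarith [ht.1]) hd.le)
        (by field_simp; ring)
      convert this using 1
      rw [hγ]
      simp only [Complex.real_smul]
      have hd' : ((x' : ℂ) - x) ≠ 0 := by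
        rw [← Complex.ofReal_sub]
        exact Complex.ofReal_ne_zero.2 hd.ne'
      push_cast
      field_simp
      ring
  have hder : ∀ t ∈ Icc x x', HasDerivAt (fun s => Real.log ‖g (γ s)‖) (ℓ (γ t) * e).re t := by
    intro t ht
    obtain ⟨b1, b2, -⟩ := hg _ (hmem t ht)
    have b3 : HasDerivAt (fun s => g (γ s)) (g (γ t) * ℓ (γ t) * e) t :=
      b2.comp_of_eq t (hγd t) rfl
    rw [mul_assoc] at b3
    exact deriv_log b1 b3
  have hlow : ∀ t ∈ Icc x x', ‖ℓ₀‖ / 2 ≤ (ℓ (γ t) * e).re := by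
    intro t ht
    obtain ⟨-, -, b3⟩ := hg _ (hmem t ht)
    have c1 : (ℓ₀ * e).re = ‖ℓ₀‖ := by
      have c2 : ℓ₀ * e = ((‖ℓ₀‖ : ℝ) : ℂ) := by
        have hne : ((‖ℓ₀‖ : ℝ) : ℂ) ≠ 0 := Complex.ofReal_ne_zero.2 hl0.ne'
        apply mul_right_cancel₀ hne
        rw [mul_assoc, he, Complex.mul_conj, Complex.normSq_eq_norm_sq]
        push_cast
        ring
      rw [c2, Complex.ofReal_re]
    have c3 : (ℓ (γ t) * e).re = (ℓ₀ * e).re + ((ℓ (γ t) - ℓ₀) * e).re := by
      rw [← Complex.add_re]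
      congr 1
      ring
    have c4 : |((ℓ (γ t) - ℓ₀) * e).re| ≤ ‖ℓ₀‖ / 2 := by
      refine (Complex.abs_re_le_norm _).trans ?_
      rw [norm_mul, hen, mul_one]
      exact b3
    have c5 := (abs_le.1 c4).1
    rw [c3, c1]
    linarith
  have key := Convex.mul_sub_le_image_sub_of_le_deriv (convex_Icc x x')
    (f := fun s => Real.log ‖g (γ s)‖) (C := ‖ℓ₀‖ / 2)
    (fun t ht => (hder t ht).continuousAt.continuousWithinAt)
    (fun t ht => (hder t (interior_subset ht)).differentiableAt.differentiableWithinAt)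
    (fun t ht => by rw [(hder t (interior_subset ht)).deriv]; exact hlow t (interior_subset ht))
    x (left_mem_Icc.2 hxx) x' (right_mem_Icc.2 hxx) hxx
  rw [le_div_iff₀ hl0]
  have : ‖ℓ₀‖ / 2 * (x' - x) ≤ β - α := key.trans (by
    change Real.log ‖g (γ x')‖ - Real.log ‖g (γ x)‖ ≤ β - α
    linarith)
  linarith

theorem main : Pool.Agent.W747.MB.P_SLB := by
  intro g ℓ c₀ ℓ₀ R α β hR hl hab hg
  have hl0 : 0 < ‖ℓ₀‖ := norm_pos_iff.2 hl
  set S : Set ℂ := {c | c ∈ closedBall c₀ R ∧ α ≤ Real.log ‖g c‖ ∧ Real.log ‖g c‖ ≤ β} with hS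
  -- S is closed
  have hcont : ContinuousOn (fun c => Real.log ‖g c‖) (closedBall c₀ R) := by
    intro c hc
    obtain ⟨b1, b2, -⟩ := hg c hc
    exact ((b2.continuousAt.norm).log (norm_ne_zero_iff.2 b1)).continuousWithinAt
  have hSm : MeasurableSet S := by
    have : S = closedBall c₀ R ∩ (fun c => Real.log ‖g c‖) ⁻¹' (Icc α β) := by
      ext c; simp [hS, mem_Icc]
    rw [this]
    exact (hcont.preimage_isClosed_of_isClosed isClosed_closedBall isClosed_Icc).measurableSet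
  -- the isometry
  have hu : ‖(starRingEnd ℂ) ℓ₀ / ‖ℓ₀‖‖ = 1 := by
    rw [norm_div, Complex.norm_conj, Complex.norm_real, norm_norm, div_self hl0.ne']
  obtain ⟨u, hue⟩ : ∃ u : Circle, (u : ℂ) = (starRingEnd ℂ) ℓ₀ / ‖ℓ₀‖ :=
    ⟨⟨_, mem_sphere_zero_iff_norm.2 hu⟩, rfl⟩
  have hmp1 : MeasurePreserving (fun w : ℂ => c₀ + (u : ℂ) * w) := by
    have m1 := (rotation u).measurePreserving
    have m2 := measurePreserving_add_left (volume : Measure ℂ) c₀
    exact m2.comp m1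
  have hmp2 := Complex.volume_preserving_equiv_real_prod.symm Complex.measurableEquivRealProd
  have hmp := hmp1.comp hmp2
  have hvol := hmp.measure_preimage hSm.nullMeasurableSet
  rw [← hvol]
  set T : ℝ × ℝ → ℂ := (fun w : ℂ => c₀ + (u : ℂ) * w) ∘ Complex.measurableEquivRealProd.symm
    with hT
  have hTa : ∀ x y : ℝ, T (x, y) = c₀ + (u : ℂ) * ((x : ℂ) + y * Complex.I) := by
    intro x y
    rw [hT]
    simp only [Function.comp_apply]
    congr 2
    apply Complex.ext <;> simp [Complex.measurableEquivRealProd]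
  have hK : MeasurableSet (T ⁻¹' S) := hmp.measurable hSm
  rw [Measure.volume_eq_prod, Measure.prod_apply_symm hK]
  have he : (u : ℂ) * ‖ℓ₀‖ = (starRingEnd ℂ) ℓ₀ := by
    rw [hue]
    have hne : ((‖ℓ₀‖ : ℝ) : ℂ) ≠ 0 := Complex.ofReal_ne_zero.2 hl0.ne'
    field_simp
  have hball : ∀ x y : ℝ, T (x, y) ∈ closedBall c₀ R → |y| ≤ R := by
    intro x y h
    rw [hTa, mem_closedBall, dist_eq_norm, add_sub_cancel_left, norm_mul, Circle.norm_coe,
      one_mul] at h
    have := Complex.abs_im_le_norm ((x : ℂ) + y * Complex.I)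
    simp at this
    linarith
  have hslice : ∀ y : ℝ, volume ((fun x : ℝ => (x, y)) ⁻¹' (T ⁻¹' S)) ≤
      (Icc (-R) R).indicator (fun _ => ENNReal.ofReal (2 * (β - α) / ‖ℓ₀‖)) y := by
    intro y
    by_cases hy : |y| ≤ R
    · rw [Set.indicator_of_mem (show y ∈ Icc (-R) R from abs_le.1 hy)]
      refine (Real.volume_le_diam _).trans ?_
      apply Metric.ediam_le
      intro x hx x' hx'
      rw [edist_dist]
      apply ENNReal.ofReal_le_ofReal
      rw [Real.dist_eq]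
      have hx1 : T (x, y) ∈ S := hx
      have hx2 : T (x', y) ∈ S := hx'
      rw [hTa] at hx1 hx2
      rcases le_total x x' with h | h
      · rw [abs_sub_comm, abs_of_nonneg (sub_nonneg.2 h)]
        exact slice hl he hg y h hx1.1 hx2.1 hx1.2.1 hx2.2.2
      · rw [abs_of_nonneg (sub_nonneg.2 h)]
        exact slice hl he hg y h hx2.1 hx1.1 hx2.2.1 hx1.2.2
    · have : (fun x : ℝ => (x, y)) ⁻¹' (T ⁻¹' S) = ∅ := by
        rw [eq_empty_iff_forall_notMem]
        intro x hx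
        exact hy (hball x y hx.1)
      rw [this, measure_empty]
      exact bot_le
  refine (lintegral_mono hslice).trans ?_
  rw [lintegral_indicator measurableSet_Icc, lintegral_const, Measure.restrict_apply_univ,
    Real.volume_Icc, ← ENNReal.ofReal_mul (by positivity)]
  apply ENNReal.ofReal_le_ofReal
  apply le_of_eq
  field_simp
  ring

end Pool.Agent.W21.MB
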